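import Pool.Agent.H211.AD.Stm2

/-!
# Covering lemma for outer area in the plane
-/

set_option autoImplicit false

open Metric Set MeasureTheory Filter Topology

namespace Pool.Agent.H332.AD211

open Pool.Agent.H211.AD

theorem t_COV : S_COV := by
  refine ⟨16, by norm_num, ?_⟩
  intro a₀ σ σ' q S B h0 h1 hq hS hB
  have hσ : 0 < σ := lt_of_lt_of_le h0 h1
  -- card bound
  have hcard : ∀ F : Finset ℂ, (F : Set ℂ) ⊆ S →
      (F : Set ℂ).Pairwise (fun x y => σ' ≤ dist x y) → (F.card : ℝ) * σ' ^ 2 ≤ 16 * σ ^ 2 := by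
    intro F hF hsep
    have hdisj : (F : Set ℂ).PairwiseDisjoint (fun x => ball x (σ' / 2)) := by
      intro x hx y hy hxy
      apply Metric.ball_disjoint_ball
      have := hsep hx hy hxy
      linarith
    have hsub : (⋃ x ∈ F, ball x (σ' / 2)) ⊆ ball a₀ (2 * σ) := by
      intro w hw
      simp only [mem_iUnion] at hw
      obtain ⟨x, hx, hw⟩ := hw
      have hx' := hS (hF hx)
      rw [mem_ball] at hw hx' ⊢
      have := dist_triangle w x a₀
      linarith
    have hv := measure_mono hsub (μ := (volume : Measure ℂ))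
    rw [measure_biUnion_finset hdisj (fun x _ => measurableSet_ball)] at hv
    simp only [Complex.volume_ball] at hv
    rw [Finset.sum_const, nsmul_eq_mul] at hv
    have e1 : (F.card : ENNReal) * (ENNReal.ofReal (σ' / 2) ^ 2 * (NNReal.pi : ENNReal)) =
        ENNReal.ofReal ((F.card : ℝ) * ((σ' / 2) ^ 2 * Real.pi)) := by
      rw [ENNReal.ofReal_mul (by positivity), ENNReal.ofReal_mul (by positivity),
        ENNReal.ofReal_pow (by positivity), ENNReal.ofReal_natCast]
      congr 2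
      exact (ENNReal.ofReal_eq_coe_nnreal Real.pi_pos.le).symm
    have e2 : ENNReal.ofReal (2 * σ) ^ 2 * (NNReal.pi : ENNReal) =
        ENNReal.ofReal ((2 * σ) ^ 2 * Real.pi) := by
      rw [ENNReal.ofReal_mul (p := (2 * σ) ^ 2) (by positivity),
        ENNReal.ofReal_pow (by positivity)]
      congr 1
      exact (ENNReal.ofReal_eq_coe_nnreal Real.pi_pos.le).symm
    rw [e1, e2, ENNReal.ofReal_le_ofReal_iff (by positivity)] at hv
    have hpi := Real.pi_pos
    have h3 : ((F.card : ℝ) * (σ' / 2) ^ 2) * Real.pi ≤ (2 * σ) ^ 2 * Real.pi := by linarith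
    have h4 := le_of_mul_le_mul_right h3 hpi
    nlinarith
  -- a maximal separated subset
  obtain ⟨m, hm⟩ : ∃ m : ℕ, 16 * σ ^ 2 / σ' ^ 2 ≤ m := exists_nat_ge _
  classical
  let P : ℕ → Prop := fun n => ∃ F : Finset ℂ, F.card = n ∧ (F : Set ℂ) ⊆ S ∧
      (F : Set ℂ).Pairwise (fun x y => σ' ≤ dist x y)
  have hP0 : P 0 := ⟨∅, by simp, by simp, by simp⟩
  have hPle : ∀ n, P n → n ≤ m := by
    rintro n ⟨F, rfl, h2, h3⟩
    have h4 := hcard F h2 h3
    have h5 : (F.card : ℝ) ≤ 16 * σ ^ 2 / σ' ^ 2 := by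
      rw [le_div_iff₀ (by positivity)]
      exact h4
    exact_mod_cast h5.trans hm
  obtain ⟨F, hF1, hF2, hF3⟩ : P (Nat.findGreatest P m) :=
    Nat.findGreatest_spec (P := P) (m := 0) (Nat.zero_le _) hP0
  have hcov : ∀ x ∈ S, ∃ y ∈ F, dist x y < σ' := by
    intro x hx
    by_contra hcon
    push Not at hcon
    have hxF : x ∉ F := by
      intro hxF
      have := hcon x hxF
      rw [dist_self] at this
      linarith
    have hPn : P (F.card + 1) := by
      refine ⟨insert x F, Finset.card_insert_of_notMem hxF, ?_, ?_⟩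
      · rw [Finset.coe_insert]
        exact insert_subset hx hF2
      · rw [Finset.coe_insert]
        refine (Set.pairwise_insert).2 ⟨hF3, ?_⟩
        intro y hy _
        exact ⟨hcon y hy, by rw [dist_comm]; exact hcon y hy⟩
    have h6 := Nat.le_findGreatest (hPle _ hPn) hPn
    omega
  have hsub : B ∩ S ⊆ ⋃ y ∈ F, (B ∩ ball y σ') := by
    rintro x ⟨hxB, hxS⟩
    obtain ⟨y, hy, hxy⟩ := hcov x hxS
    simp only [mem_iUnion]
    exact ⟨y, hy, hxB, hxy⟩
  calc volume (B ∩ S) ≤ volume (⋃ y ∈ F, (B ∩ ball y σ')) := measure_mono hsub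
    _ ≤ ∑ y ∈ F, volume (B ∩ ball y σ') := measure_biUnion_finset_le _ _
    _ ≤ ∑ _y ∈ F, ENNReal.ofReal (q * σ' ^ 2) := Finset.sum_le_sum fun y hy => hB y (hF2 hy)
    _ = ENNReal.ofReal ((F.card : ℝ) * (q * σ' ^ 2)) := by
        rw [Finset.sum_const, nsmul_eq_mul,
          ENNReal.ofReal_mul (p := (F.card : ℝ)) (by positivity), ENNReal.ofReal_natCast]
    _ ≤ ENNReal.ofReal (16 * q * σ ^ 2) := by
        apply ENNReal.ofReal_le_ofReal
        have := mul_le_mul_of_nonneg_left (hcard F hF2 hF3) hq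
        nlinarith

end Pool.Agent.H332.AD211
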