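import Pool.Agent.H211.AD.Stm

/-!
# Decay from two recursions
-/

set_option autoImplicit false

open Metric Set MeasureTheory Filter Topology

namespace Pool.Agent.H332.AD211

open Pool.Agent.H211.AD

/-- The weighted running maximum of the sequence `a`. -/
noncomputable def bb (a : ℕ → ℝ) (q : ℝ) : ℕ → ℝ
  | 0 => a 0
  | n + 1 => max (a (n + 1)) (q * bb a q n)

lemma le_bb (a : ℕ → ℝ) (q : ℝ) (n : ℕ) : a n ≤ bb a q n := by
  cases n with
  | zero => exact le_refl _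
  | succ n => exact le_max_left _ _

lemma bb_nonneg {a : ℕ → ℝ} {q : ℝ} (ha : ∀ n, 0 ≤ a n) (n : ℕ) : 0 ≤ bb a q n :=
  (ha n).trans (le_bb a q n)

lemma bb_shift (a : ℕ → ℝ) {q : ℝ} (hq : 0 ≤ q) (n k : ℕ) :
    q ^ k * bb a q n ≤ bb a q (n + k) := by
  induction k with
  | zero => simp
  | succ k ih =>
    calc q ^ (k + 1) * bb a q n = q * (q ^ k * bb a q n) := by ring
      _ ≤ q * bb a q (n + k) := mul_le_mul_of_nonneg_left ih hq
      _ ≤ bb a q (n + (k + 1)) := le_max_right _ _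

lemma bb_le_of {a : ℕ → ℝ} {q r D : ℝ} (hq : 0 ≤ q) (hqr : q ≤ r) (hD : 0 ≤ D) (m : ℕ)
    (h : ∀ i ≤ m, a i ≤ D * r ^ i) : bb a q m ≤ D * r ^ m := by
  have hr : 0 ≤ r := hq.trans hqr
  induction m with
  | zero => exact h 0 (le_refl _)
  | succ m ih =>
    have h1 := ih fun i hi => h i (by omega)
    refine max_le (h _ (le_refl _)) ?_
    calc q * bb a q m ≤ q * (D * r ^ m) := mul_le_mul_of_nonneg_left h1 hq
      _ ≤ r * (D * r ^ m) := mul_le_mul_of_nonneg_right hqr (by positivity)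
      _ = D * r ^ (m + 1) := by ring

/-- One double sum. -/
lemma dsum (Cr : Finset ℂ) (ℓ : ℂ → ℕ) (κ C γ q A : ℝ) (a : ℕ → ℝ) (Φ : ℕ → ℂ → ℝ → ℝ)
    (hℓ : ∀ c ∈ Cr, 2 ≤ ℓ c) (hκ : 0 < κ) (hC : 0 < C)
    (hq : 0 < q) (hκq : κ ^ γ < q) (hA : 0 ≤ A) (ha : ∀ n, 0 ≤ a n) (n : ℕ)
    (IH : ∀ m < n, ∀ c ∈ Cr, ∀ ρ : ℝ, 0 < ρ → Φ m c ρ ≤ A * ρ ^ (γ * ℓ c) * bb a q m)
    (M : ℕ) (y : ℝ) (hy : 0 < y) :
    ∑ j ∈ Finset.Ico M n, ∑ c' ∈ Cr, Φ (n - (j + 1)) c' ((C * κ ^ j * y) ^ (1 / (ℓ c' : ℝ))) ≤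
      (Cr.card : ℝ) * (A * C ^ γ / q) * ((κ ^ γ / q) ^ M / (1 - κ ^ γ / q)) * y ^ γ * bb a q n := by
  set s : ℝ := κ ^ γ / q with hs
  have hκγ : 0 < κ ^ γ := Real.rpow_pos_of_pos hκ _
  have hs0 : 0 ≤ s := by positivity
  have hs1 : s < 1 := by rw [hs, div_lt_one hq]; exact hκq
  have hterm : ∀ j ∈ Finset.Ico M n, ∀ c' ∈ Cr,
      Φ (n - (j + 1)) c' ((C * κ ^ j * y) ^ (1 / (ℓ c' : ℝ))) ≤
        A * C ^ γ / q * y ^ γ * bb a q n * s ^ j := by
    intro j hj c' hc'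
    rw [Finset.mem_Ico] at hj
    have hw : 0 < C * κ ^ j * y := by positivity
    have hℓ0 : (ℓ c' : ℝ) ≠ 0 := by
      have := hℓ c' hc'
      have : ℓ c' ≠ 0 := by omega
      exact_mod_cast this
    have h1 := IH (n - (j + 1)) (by omega) c' hc' ((C * κ ^ j * y) ^ (1 / (ℓ c' : ℝ)))
      (Real.rpow_pos_of_pos hw _)
    have h2 : ((C * κ ^ j * y) ^ (1 / (ℓ c' : ℝ))) ^ (γ * (ℓ c' : ℝ)) =
        C ^ γ * (κ ^ γ) ^ j * y ^ γ := by
      rw [← Real.rpow_mul hw.le]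
      have : 1 / (ℓ c' : ℝ) * (γ * (ℓ c' : ℝ)) = γ := by field_simp
      rw [this, Real.mul_rpow (by positivity) hy.le, Real.mul_rpow hC.le (by positivity)]
      congr 2
      rw [← Real.rpow_natCast κ j, ← Real.rpow_mul hκ.le, mul_comm, Real.rpow_mul hκ.le,
        Real.rpow_natCast]
    rw [h2] at h1
    have h3 : q ^ (j + 1) * bb a q (n - (j + 1)) ≤ bb a q n := by
      have := bb_shift a hq.le (n - (j + 1)) (j + 1)
      rwa [show n - (j + 1) + (j + 1) = n by omega] at this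
    calc Φ (n - (j + 1)) c' ((C * κ ^ j * y) ^ (1 / (ℓ c' : ℝ)))
        ≤ A * (C ^ γ * (κ ^ γ) ^ j * y ^ γ) * bb a q (n - (j + 1)) := h1
      _ = A * C ^ γ / q * y ^ γ * s ^ j * (q ^ (j + 1) * bb a q (n - (j + 1))) := by
          rw [hs, div_pow, pow_succ]
          field_simp
      _ ≤ A * C ^ γ / q * y ^ γ * s ^ j * bb a q n := by
          refine mul_le_mul_of_nonneg_left h3 ?_
          have := Real.rpow_nonneg hC.le γ
          have := Real.rpow_nonneg hy.le γ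
          positivity
      _ = A * C ^ γ / q * y ^ γ * bb a q n * s ^ j := by ring
  have hgeom := geom_sum_Ico_le_of_lt_one (m := M) (n := n) hs0 hs1
  calc ∑ j ∈ Finset.Ico M n, ∑ c' ∈ Cr, Φ (n - (j + 1)) c' ((C * κ ^ j * y) ^ (1 / (ℓ c' : ℝ)))
      ≤ ∑ j ∈ Finset.Ico M n, ∑ _c' ∈ Cr, A * C ^ γ / q * y ^ γ * bb a q n * s ^ j :=
        Finset.sum_le_sum fun j hj => Finset.sum_le_sum fun c' hc' => hterm j hj c' hc'
    _ = (Cr.card : ℝ) * (A * C ^ γ / q * y ^ γ * bb a q n) * ∑ j ∈ Finset.Ico M n, s ^ j := by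
        simp only [Finset.sum_const, nsmul_eq_mul]
        rw [Finset.mul_sum]
        exact Finset.sum_congr rfl fun j _ => by ring
    _ ≤ (Cr.card : ℝ) * (A * C ^ γ / q * y ^ γ * bb a q n) * (s ^ M / (1 - s)) := by
        refine mul_le_mul_of_nonneg_left hgeom ?_
        have := Real.rpow_nonneg hC.le γ
        have := Real.rpow_nonneg hy.le γ
        have := bb_nonneg (q := q) ha n
        positivity
    _ = (Cr.card : ℝ) * (A * C ^ γ / q) * (s ^ M / (1 - s)) * y ^ γ * bb a q n := by ring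

/-- First half: the estimate near the critical points. -/
theorem first_half (Cr : Finset ℂ) (ℓ : ℂ → ℕ) (κ C : ℝ) (a : ℕ → ℝ) (Φ : ℕ → ℂ → ℝ → ℝ)
    (hℓ : ∀ c ∈ Cr, 2 ≤ ℓ c) (hκ : 0 < κ) (hκ1 : κ < 1) (hC : 1 ≤ C) (ha : ∀ n, 0 ≤ a n)
    (hΦa : ∀ n c ρ, Φ n c ρ ≤ a n)
    (hrec : ∀ M : ℕ, ∃ R₂ > 0, ∀ (n : ℕ), ∀ c ∈ Cr, ∀ ρ : ℝ, 0 < ρ → ρ ≤ R₂ → ∃ N : ℕ,
      Φ n c ρ ≤ C * (ρ / R₂) ^ 2 * a n +
        ∑ k ∈ Finset.range N, C * (1 / 4) ^ k * ∑ j ∈ Finset.Ico M n, ∑ c' ∈ Cr,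
          Φ (n - (j + 1)) c' ((C * κ ^ j * (2 ^ k * ρ) ^ ℓ c) ^ (1 / (ℓ c' : ℝ)))) :
    ∃ γ q A : ℝ, 0 < γ ∧ 0 < q ∧ q < 1 ∧ κ ^ γ < q ∧ 0 < A ∧ ∀ n, ∀ c ∈ Cr, ∀ ρ : ℝ, 0 < ρ →
      Φ n c ρ ≤ A * ρ ^ (γ * ℓ c) * bb a q n := by
  -- the bound of the degrees
  obtain ⟨L, hL2, hL⟩ : ∃ L : ℕ, 1 ≤ L ∧ ∀ c ∈ Cr, ℓ c ≤ L :=
    ⟨Cr.sup ℓ + 1, by omega, fun c hc => (Finset.le_sup hc).trans (by omega)⟩
  have hL0 : (0 : ℝ) < L := by exact_mod_cast hL2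
  set γ : ℝ := 1 / L with hγ
  have hγ0 : 0 < γ := by positivity
  have hκγ0 : 0 < κ ^ γ := Real.rpow_pos_of_pos hκ _
  have hκγ1 : κ ^ γ < 1 := Real.rpow_lt_one hκ.le hκ1 hγ0
  set q : ℝ := (1 + κ ^ γ) / 2 with hq
  have hq0 : 0 < q := by positivity
  have hq1 : q < 1 := by rw [hq]; linarith
  have hκq : κ ^ γ < q := by rw [hq]; linarith
  have hC0 : 0 < C := by linarith
  set s : ℝ := κ ^ γ / q with hs
  have hs0 : 0 ≤ s := by positivity
  have hs1 : s < 1 := by rw [hs, div_lt_one hq0]; exact hκq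
  have h1s : 0 < 1 - s := by linarith
  have hCγ : 0 < C ^ γ := Real.rpow_pos_of_pos hC0 _
  -- the choice of `M`
  set G : ℝ := 4 * C * ((Cr.card : ℝ) * (C ^ γ / q) * (1 / (1 - s))) with hG
  have hG0 : 0 ≤ G := by positivity
  obtain ⟨M, hM⟩ := exists_pow_lt_of_lt_one (show (0 : ℝ) < 1 / (G + 1) by positivity) hs1
  have hGM : G * s ^ M ≤ 1 := by
    calc G * s ^ M ≤ G * (1 / (G + 1)) := mul_le_mul_of_nonneg_left hM.le hG0
      _ ≤ 1 := by rw [mul_one_div, div_le_one (by positivity)]; linarith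
  obtain ⟨R₂, hR₂, hrecM⟩ := hrec M
  set R : ℝ := min 1 R₂ with hR
  have hR0 : 0 < R := lt_min one_pos hR₂
  set A : ℝ := 2 * C / R with hA
  have hA0 : 0 < A := by positivity
  have hexp : ∀ c ∈ Cr, 0 < γ * ℓ c ∧ γ * ℓ c ≤ 1 := by
    intro c hc
    have h1 := hℓ c hc
    have h2 := hL c hc
    have h3 : (2 : ℝ) ≤ ℓ c := by exact_mod_cast h1
    have h4 : (ℓ c : ℝ) ≤ L := by exact_mod_cast h2
    refine ⟨by positivity, ?_⟩
    rw [hγ, one_div, inv_mul_le_iff₀ hL0]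
    linarith
  have hRexp : ∀ c ∈ Cr, R ≤ R₂ ^ (γ * ℓ c) := by
    intro c hc
    obtain ⟨h1, h2⟩ := hexp c hc
    rcases le_total 1 R₂ with h | h
    · calc R ≤ 1 := min_le_left _ _
        _ ≤ R₂ ^ (γ * ℓ c) := Real.one_le_rpow h h1.le
    · calc R ≤ R₂ := min_le_right _ _
        _ = R₂ ^ (1 : ℝ) := (Real.rpow_one _).symm
        _ ≤ R₂ ^ (γ * ℓ c) := Real.rpow_le_rpow_of_exponent_ge hR₂ h h2
  refine ⟨γ, q, A, hγ0, hq0, hq1, hκq, hA0, ?_⟩
  intro n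
  induction n using Nat.strong_induction_on with
  | _ n IH =>
  intro c hc ρ hρ
  obtain ⟨he0, he1⟩ := hexp c hc
  have hbn : 0 ≤ bb a q n := bb_nonneg ha n
  have hρe : 0 < ρ ^ (γ * ℓ c) := Real.rpow_pos_of_pos hρ _
  rcases le_total R₂ ρ with hρR | hρR
  · -- large radius
    have h1 : R ≤ ρ ^ (γ * ℓ c) :=
      (hRexp c hc).trans (Real.rpow_le_rpow hR₂.le hρR he0.le)
    have h2 : 1 ≤ A * ρ ^ (γ * ℓ c) := by
      calc (1 : ℝ) ≤ 2 * C := by linarith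
        _ = A * R := by rw [hA]; field_simp
        _ ≤ A * ρ ^ (γ * ℓ c) := by gcongr
    calc Φ n c ρ ≤ a n := hΦa _ _ _
      _ ≤ 1 * bb a q n := by rw [one_mul]; exact le_bb a q n
      _ ≤ A * ρ ^ (γ * ℓ c) * bb a q n := mul_le_mul_of_nonneg_right h2 hbn
  · obtain ⟨N, hN⟩ := hrecM n c hc ρ hρ hρR
    -- the first term
    have t1 : C * (ρ / R₂) ^ 2 * a n ≤ A / 2 * ρ ^ (γ * ℓ c) * bb a q n := by
      have hx0 : 0 < ρ / R₂ := by positivity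
      have hx1 : ρ / R₂ ≤ 1 := by rw [div_le_one hR₂]; exact hρR
      have h1 : (ρ / R₂) ^ 2 ≤ (ρ / R₂) ^ (γ * ℓ c) := by
        rw [← Real.rpow_natCast (ρ / R₂) 2]
        apply Real.rpow_le_rpow_of_exponent_ge hx0 hx1
        push_cast
        linarith
      have h2 : (ρ / R₂) ^ (γ * ℓ c) ≤ ρ ^ (γ * ℓ c) / R := by
        rw [Real.div_rpow hρ.le hR₂.le]
        exact div_le_div_of_nonneg_left hρe.le hR0 (hRexp c hc)
      calc C * (ρ / R₂) ^ 2 * a n ≤ C * (ρ ^ (γ * ℓ c) / R) * bb a q n := by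
            refine mul_le_mul ?_ (le_bb a q n) (ha n) (by positivity)
            exact mul_le_mul_of_nonneg_left (h1.trans h2) hC0.le
        _ = A / 2 * ρ ^ (γ * ℓ c) * bb a q n := by rw [hA]; field_simp
    -- the double sum
    set X : ℝ := (Cr.card : ℝ) * (A * C ^ γ / q) * (s ^ M / (1 - s)) with hX
    have hX0 : 0 ≤ X := by positivity
    have t2 : ∀ k ∈ Finset.range N,
        C * (1 / 4) ^ k * ∑ j ∈ Finset.Ico M n, ∑ c' ∈ Cr,
          Φ (n - (j + 1)) c' ((C * κ ^ j * (2 ^ k * ρ) ^ ℓ c) ^ (1 / (ℓ c' : ℝ))) ≤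
        C * X * ρ ^ (γ * ℓ c) * bb a q n * (1 / 2) ^ k := by
      intro k _
      have h1 := dsum Cr ℓ κ C γ q A a Φ hℓ hκ hC0 hq0 hκq hA0.le ha n IH M
        ((2 ^ k * ρ) ^ ℓ c) (by positivity)
      have h2 : ((2 ^ k * ρ) ^ ℓ c) ^ γ ≤ 2 ^ k * ρ ^ (γ * ℓ c) := by
        rw [← Real.rpow_natCast, ← Real.rpow_mul (by positivity), mul_comm (ℓ c : ℝ) γ,
          Real.mul_rpow (by positivity) hρ.le]
        refine mul_le_mul_of_nonneg_right ?_ hρe.le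
        calc ((2 : ℝ) ^ k) ^ (γ * (ℓ c : ℝ)) ≤ ((2 : ℝ) ^ k) ^ (1 : ℝ) :=
              Real.rpow_le_rpow_of_exponent_le (one_le_pow₀ (by norm_num)) he1
          _ = 2 ^ k := Real.rpow_one _
      have h3 : (0 : ℝ) ≤ C * (1 / 4) ^ k := by positivity
      have h24 : (1 / 4 : ℝ) ^ k * 2 ^ k = (1 / 2) ^ k := by
        rw [← mul_pow]; norm_num
      calc C * (1 / 4) ^ k * ∑ j ∈ Finset.Ico M n, ∑ c' ∈ Cr,
            Φ (n - (j + 1)) c' ((C * κ ^ j * (2 ^ k * ρ) ^ ℓ c) ^ (1 / (ℓ c' : ℝ)))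
          ≤ C * (1 / 4) ^ k * (X * ((2 ^ k * ρ) ^ ℓ c) ^ γ * bb a q n) :=
            mul_le_mul_of_nonneg_left h1 h3
        _ ≤ C * (1 / 4) ^ k * (X * (2 ^ k * ρ ^ (γ * ℓ c)) * bb a q n) := by
            gcongr
        _ = C * X * ρ ^ (γ * ℓ c) * bb a q n * ((1 / 4) ^ k * 2 ^ k) := by ring
        _ = C * X * ρ ^ (γ * ℓ c) * bb a q n * (1 / 2) ^ k := by rw [h24]
    have t3 : C * X * 2 ≤ A / 2 := by
      have : C * X * 2 = A / 2 * (G * s ^ M) := by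
        rw [hX, hG]; ring
      rw [this]
      calc A / 2 * (G * s ^ M) ≤ A / 2 * 1 := by gcongr
        _ = A / 2 := by ring
    calc Φ n c ρ ≤ _ := hN
      _ ≤ A / 2 * ρ ^ (γ * ℓ c) * bb a q n +
          ∑ k ∈ Finset.range N, C * X * ρ ^ (γ * ℓ c) * bb a q n * (1 / 2) ^ k :=
          add_le_add t1 (Finset.sum_le_sum t2)
      _ = A / 2 * ρ ^ (γ * ℓ c) * bb a q n +
          C * X * ρ ^ (γ * ℓ c) * bb a q n * ∑ k ∈ Finset.range N, (1 / 2 : ℝ) ^ k := by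
          rw [Finset.mul_sum]
      _ ≤ A / 2 * ρ ^ (γ * ℓ c) * bb a q n + C * X * ρ ^ (γ * ℓ c) * bb a q n * 2 := by
          gcongr
          exact sum_geometric_two_le N
      _ = A / 2 * ρ ^ (γ * ℓ c) * bb a q n + (C * X * 2) * (ρ ^ (γ * ℓ c) * bb a q n) := by ring
      _ ≤ A / 2 * ρ ^ (γ * ℓ c) * bb a q n + A / 2 * (ρ ^ (γ * ℓ c) * bb a q n) := by
          gcongr
      _ = A * ρ ^ (γ * ℓ c) * bb a q n := by ring

/-- Second half. -/
theorem t_DEC : S_DEC := by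
  intro Cr ℓ κ C R₁ a Φ hℓ hκ hκ1 hC hR₁ ha _ hΦa hrec hrec2
  obtain ⟨γ, q, A, hγ0, hq0, hq1, hκq, hA0, hΦ⟩ :=
    first_half Cr ℓ κ C a Φ hℓ hκ hκ1 hC ha hΦa hrec
  have hC0 : 0 < C := by linarith
  have hκγ0 : 0 < κ ^ γ := Real.rpow_pos_of_pos hκ _
  have hCγ : 0 < C ^ γ := Real.rpow_pos_of_pos hC0 _
  have hs1 : κ ^ γ / q < 1 := by rw [div_lt_one hq0]; exact hκq
  have h1s : 0 < 1 - κ ^ γ / q := by linarith
  set X : ℝ := (Cr.card : ℝ) * (A * C ^ γ / q) * ((κ ^ γ / q) ^ 0 / (1 - κ ^ γ / q)) with hX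
  have hX0 : 0 ≤ X := by positivity
  -- the scale
  set z : ℝ := 1 / (4 * (X + 1)) with hz
  have hz0 : 0 < z := by positivity
  set ϱ : ℝ := min R₁ (z ^ (1 / γ)) with hϱ
  have hϱ0 : 0 < ϱ := lt_min hR₁ (Real.rpow_pos_of_pos hz0 _)
  have hϱz : ϱ ^ γ ≤ z := by
    calc ϱ ^ γ ≤ (z ^ (1 / γ)) ^ γ := Real.rpow_le_rpow hϱ0.le (min_le_right _ _) hγ0.le
      _ = z := by
          rw [← Real.rpow_mul hz0.le, one_div, inv_mul_cancel₀ hγ0.ne', Real.rpow_one]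
  have hXϱ : X * ϱ ^ γ ≤ 1 / 4 := by
    calc X * ϱ ^ γ ≤ X * z := by gcongr
      _ ≤ 1 / 4 := by
          rw [hz, mul_one_div, div_le_div_iff₀ (by positivity) (by norm_num)]
          linarith
  obtain ⟨T₀, hT₀⟩ := hrec2 ϱ hϱ0 (min_le_left _ _) (1 / 4) (by norm_num)
  have hmain : ∀ n, a (n + T₀) ≤ 1 / 2 * bb a q n := by
    intro n
    have h1 := dsum Cr ℓ κ C γ q A a Φ hℓ hκ hC0 hq0 hκq hA0.le ha n
      (fun m _ => hΦ m) 0 ϱ hϱ0
    rw [← Finset.range_eq_Ico] at h1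
    have h2 := hT₀ n
    have h3 := le_bb a q n
    have hbn : 0 ≤ bb a q n := bb_nonneg ha n
    calc a (n + T₀) ≤ _ := h2
      _ ≤ 1 / 4 * bb a q n + X * ϱ ^ γ * bb a q n := by
          refine add_le_add (by linarith) h1
      _ ≤ 1 / 4 * bb a q n + 1 / 4 * bb a q n := by gcongr
      _ = 1 / 2 * bb a q n := by ring
  rcases Nat.eq_zero_or_pos T₀ with hT | hT
  · -- all are zero except the first
    refine ⟨bb a q 0, q, hq0, hq1, fun n => ?_⟩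
    have hb : ∀ n, bb a q n ≤ bb a q 0 * q ^ n := by
      intro n
      induction n with
      | zero => simp
      | succ n ih =>
        have h1 := hmain (n + 1)
        rw [hT, add_zero] at h1
        have h0 : 0 ≤ bb a q n := bb_nonneg ha n
        have h3 : bb a q (n + 1) ≤ q * bb a q n := by
          have h4 : bb a q (n + 1) = max (a (n + 1)) (q * bb a q n) := rfl
          rcases le_total (a (n + 1)) (q * bb a q n) with h | h
          · rw [h4, max_eq_right h]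
          · rw [max_eq_left h] at h4
            rw [h4] at h1 ⊢
            have h5 : a (n + 1) ≤ 0 := by linarith
            exact h5.trans (by positivity)
        calc bb a q (n + 1) ≤ q * bb a q n := h3
          _ ≤ q * (bb a q 0 * q ^ n) := by gcongr
          _ = bb a q 0 * q ^ (n + 1) := by ring
    exact (le_bb a q n).trans (hb n)
  · have hT0 : (0 : ℝ) < T₀ := by exact_mod_cast hT
    set r : ℝ := max q ((1 / 2 : ℝ) ^ (1 / (T₀ : ℝ))) with hr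
    have hqr : q ≤ r := le_max_left _ _
    have hr0 : 0 < r := lt_of_lt_of_le hq0 hqr
    have hr1 : r < 1 := max_lt hq1 (Real.rpow_lt_one (by norm_num) (by norm_num) (by positivity))
    have hrT : 1 / 2 ≤ r ^ T₀ := by
      calc (1 / 2 : ℝ) = ((1 / 2 : ℝ) ^ (1 / (T₀ : ℝ))) ^ T₀ := by
            rw [← Real.rpow_natCast, ← Real.rpow_mul (by norm_num), one_div_mul_cancel hT0.ne',
              Real.rpow_one]
        _ ≤ r ^ T₀ := by
            gcongr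
            exact le_max_right _ _
    set D : ℝ := (∑ i ∈ Finset.range T₀, a i) / r ^ T₀ with hD
    have hD0 : 0 ≤ D := div_nonneg (Finset.sum_nonneg fun i _ => ha i) (by positivity)
    refine ⟨D, r, hr0, hr1, fun n => ?_⟩
    induction n using Nat.strong_induction_on with
    | _ n IH =>
    rcases lt_or_ge n T₀ with hn | hn
    · calc a n ≤ ∑ i ∈ Finset.range T₀, a i :=
            Finset.single_le_sum (fun i _ => ha i) (Finset.mem_range.2 hn)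
        _ = D * r ^ T₀ := by rw [hD]; field_simp
        _ ≤ D * r ^ n := by
            refine mul_le_mul_of_nonneg_left ?_ hD0
            exact pow_le_pow_of_le_one hr0.le hr1.le hn.le
    · have h1 := hmain (n - T₀)
      rw [show n - T₀ + T₀ = n by omega] at h1
      have h2 : bb a q (n - T₀) ≤ D * r ^ (n - T₀) :=
        bb_le_of hq0.le hqr hD0 _ fun i hi => IH i (by omega)
      calc a n ≤ 1 / 2 * bb a q (n - T₀) := h1
        _ ≤ r ^ T₀ * (D * r ^ (n - T₀)) := by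
            refine mul_le_mul hrT h2 (bb_nonneg ha _) (by positivity)
        _ = D * r ^ n := by
            have : r ^ n = r ^ T₀ * r ^ (n - T₀) := by
              rw [← pow_add]; congr 1; omega
            rw [this]; ring

end Pool.Agent.H332.AD211
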