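import Pool.Agent.H211.AD.Stm2

/-!
# The stopping time
-/

set_option autoImplicit false

open Metric Set MeasureTheory Filter Topology

namespace Pool.Agent.H332.AD211

open Pool.Agent.H211.AD

theorem t_TIME : S_TIME := by
  intro C₂ c₀ μ θ L hC₂ hc₀ hμ hθ hθ1
  -- ν = √μ
  obtain ⟨ν, hν1, hνμ⟩ : ∃ ν : ℝ, 1 < ν ∧ ν * ν = μ :=
    ⟨Real.sqrt μ, by rw [Real.lt_sqrt (by norm_num)]; linarith, Real.mul_self_sqrt (by linarith)⟩
  have hν0 : 0 < ν := by linarith
  have hμ0 : 0 < μ := by linarith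
  have hlogν : 0 < Real.log ν := Real.log_pos hν1
  have hlogμ : 0 < Real.log μ := Real.log_pos hμ
  -- bound of the polynomial
  obtain ⟨B, hB0, hB⟩ : ∃ B : ℝ, 0 < B ∧ ∀ n : ℕ, ((n : ℝ) + 1) ^ (2 * L) ≤ B * ν ^ n := by
    have h1 := tendsto_pow_const_div_const_pow_of_one_lt (2 * L) hν1
    obtain ⟨b, hb⟩ := h1.bddAbove_range
    have hb' : ∀ n : ℕ, (n : ℝ) ^ (2 * L) / ν ^ n ≤ b := fun n => hb ⟨n, rfl⟩
    have hb1 : 0 < b := by
      have := hb' 1
      have h2 : 0 < ((1 : ℕ) : ℝ) ^ (2 * L) / ν ^ 1 := by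
        simp only [Nat.cast_one, one_pow, pow_one]
        positivity
      linarith
    refine ⟨b * ν, by positivity, fun n => ?_⟩
    have := hb' (n + 1)
    rw [div_le_iff₀ (by positivity)] at this
    push_cast at this
    calc ((n : ℝ) + 1) ^ (2 * L) ≤ b * ν ^ (n + 1) := this
      _ = b * ν * ν ^ n := by ring
  set A : ℝ := 4 * C₂ ^ 2 with hA
  have hA1 : 1 < A := by nlinarith
  have hA0 : 0 < A := by linarith
  have hlogA : 0 < Real.log A := Real.log_pos hA1
  set c₄ : ℝ := θ ^ L * c₀ / (C₂ * B) with hc₄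
  have hC₂0 : 0 < C₂ := by linarith
  have hc₄0 : 0 < c₄ := by positivity
  set κ₃ : ℝ := 1 / (2 * Real.log A) with hκ₃
  have hκ₃0 : 0 < κ₃ := by positivity
  set κ' : ℝ := κ₃ * Real.log ν / 2 with hκ'
  have hκ'0 : 0 < κ' := by positivity
  set C_N : ℝ := (1 + |Real.log c₀|) / Real.log μ + 1 with hCN
  have hCN0 : 0 < C_N := by positivity
  -- the threshold for log (1/t)
  set Λ₁ : ℝ := 1 + 2 * |Real.log (θ * c₀ / C₂)| + |Real.log c₄| / κ' with hΛ₁
  have hΛ₁1 : 1 ≤ Λ₁ := by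
    have h1 : 0 ≤ |Real.log (θ * c₀ / C₂)| := abs_nonneg _
    have h2 : 0 ≤ |Real.log c₄| / κ' := by positivity
    linarith
  refine ⟨min (1 / 2) κ', lt_min (by norm_num) hκ'0, lt_of_le_of_lt (min_le_left _ _) (by norm_num),
    C_N, hCN0, Real.exp (- Λ₁), Real.exp_pos _, ?_, ?_⟩
  · rw [Real.exp_lt_one_iff]
    linarith
  intro p x hp0 hpl hx hps t ht0 ht1
  -- Λ = log (1/t)
  set Λ : ℝ := Real.log (1 / t) with hΛ
  have hΛt : Λ = - Real.log t := by rw [hΛ, one_div, Real.log_inv]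
  have htΛ : t = Real.exp (- Λ) := by rw [hΛt, neg_neg, Real.exp_log ht0]
  have hΛΛ₁ : Λ₁ ≤ Λ := by
    have := Real.log_le_log ht0 ht1
    rw [Real.log_exp] at this
    linarith
  have hΛ1 : 1 ≤ Λ := hΛ₁1.trans hΛΛ₁
  have hpp : ∀ n, 0 < p n := fun n => lt_of_lt_of_le (by positivity) (hpl n)
  have hpu : ∀ n, p n ≤ C₂ ^ n := by
    intro n
    induction n with
    | zero => simp [hp0]
    | succ n ih =>
      calc p (n + 1) ≤ C₂ * x n * p n := hps n
        _ ≤ C₂ * 1 * C₂ ^ n := by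
            have := hx n
            have := hpp n
            gcongr
            exact (hx n).2
        _ = C₂ ^ (n + 1) := by ring
  -- existence of the index
  have hex : ∃ i : ℕ, θ / ((i : ℝ) + 1) ^ 2 * x i < t * p i ∧ (i : ℝ) ≤ C_N * Λ := by
    -- i > (Λ - log c₀) / log μ
    set w : ℝ := (Λ + |Real.log c₀|) / Real.log μ with hw
    have hw0 : 0 ≤ w := by positivity
    refine ⟨⌊w⌋₊ + 1, ?_, ?_⟩
    · set i : ℕ := ⌊w⌋₊ + 1 with hi
      have hiw : w < i := by
        rw [hi]; push_cast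
        exact Nat.lt_floor_add_one w
      have h1 : Λ + |Real.log c₀| < i * Real.log μ := by
        rw [hw, div_lt_iff₀ hlogμ] at hiw
        exact hiw
      have h2 : 1 < t * (c₀ * μ ^ i) := by
        rw [← Real.log_pos_iff (by positivity), Real.log_mul ht0.ne' (by positivity),
          Real.log_mul hc₀.ne' (by positivity), Real.log_pow]
        have := neg_abs_le (Real.log c₀)
        linarith
      have h3 : θ / ((i : ℝ) + 1) ^ 2 * x i ≤ 1 := by
        have h4 : θ / ((i : ℝ) + 1) ^ 2 ≤ 1 := by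
          rw [div_le_one (by positivity)]
          have : (0 : ℝ) ≤ i := Nat.cast_nonneg i
          nlinarith
        calc θ / ((i : ℝ) + 1) ^ 2 * x i ≤ 1 * 1 := by
              gcongr
              · exact (hx i).1.le
              · exact (hx i).2
          _ = 1 := by norm_num
      calc θ / ((i : ℝ) + 1) ^ 2 * x i ≤ 1 := h3
        _ < t * (c₀ * μ ^ i) := h2
        _ ≤ t * p i := by
            gcongr
            exact hpl i
    · push_cast
      have h1 : (⌊w⌋₊ : ℝ) ≤ w := Nat.floor_le hw0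
      have h2 : w ≤ (1 + |Real.log c₀|) / Real.log μ * Λ := by
        rw [hw, div_mul_eq_mul_div]
        gcongr
        have : 0 ≤ |Real.log c₀| := abs_nonneg _
        nlinarith
      have h3 : C_N * Λ = (1 + |Real.log c₀|) / Real.log μ * Λ + Λ := by rw [hCN]; ring
      linarith
  classical
  have hex' : ∃ i : ℕ, θ / ((i : ℝ) + 1) ^ 2 * x i < t * p i := ⟨_, hex.choose_spec.1⟩
  set N := Nat.find hex' with hN
  have hNspec : θ / ((N : ℝ) + 1) ^ 2 * x N < t * p N := Nat.find_spec hex'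
  have hNmin : ∀ i < N, t * p i ≤ θ / ((i : ℝ) + 1) ^ 2 * x i := fun i hi =>
    not_lt.1 (Nat.find_min hex' hi)
  have hNle : (N : ℝ) ≤ C_N * Λ := by
    obtain ⟨i, hi1, hi2⟩ := hex
    have : N ≤ i := Nat.find_min' hex' hi1
    have : (N : ℝ) ≤ i := by exact_mod_cast this
    linarith
  refine ⟨N, hNmin, hNspec, hNle, ?_⟩
  intro l hl1 hlL hlN
  -- lower bound for N
  have hxN : c₀ / C₂ ^ (N + 1) ≤ x N := by
    have h1 : c₀ * 1 ≤ p (N + 1) := by
      refine le_trans ?_ (hpl (N + 1))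
      gcongr
      exact one_le_pow₀ hμ.le
    have h2 : p (N + 1) ≤ C₂ * x N * C₂ ^ N := by
      refine (hps N).trans ?_
      have := (hx N).1
      exact mul_le_mul_of_nonneg_left (hpu N) (by positivity)
    rw [div_le_iff₀ (by positivity)]
    calc c₀ = c₀ * 1 := by ring
      _ ≤ C₂ * x N * C₂ ^ N := h1.trans h2
      _ = x N * C₂ ^ (N + 1) := by ring
  have hN2 : ((N : ℝ) + 1) ^ 2 ≤ 4 ^ N := by
    have h1 : (N : ℝ) + 1 ≤ 2 ^ N := by
      have h2 : N + 1 ≤ 2 ^ N := Nat.lt_two_pow_self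
      exact_mod_cast h2
    calc ((N : ℝ) + 1) ^ 2 ≤ (2 ^ N) ^ 2 := by gcongr
      _ = 4 ^ N := by rw [← pow_mul, mul_comm, pow_mul]; norm_num
  have hkey : θ * c₀ / C₂ < t * A ^ N := by
    have h1 : θ / 4 ^ N * (c₀ / C₂ ^ (N + 1)) < t * C₂ ^ N := by
      calc θ / 4 ^ N * (c₀ / C₂ ^ (N + 1)) ≤ θ / ((N : ℝ) + 1) ^ 2 * x N := by
            gcongr
        _ < t * p N := hNspec
        _ ≤ t * C₂ ^ N := by
            gcongr
            exact hpu N
    have h2 : θ * c₀ / C₂ = θ / 4 ^ N * (c₀ / C₂ ^ (N + 1)) * (4 ^ N * C₂ ^ N) := by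
      field_simp
      ring
    have h3 : t * A ^ N = t * C₂ ^ N * (4 ^ N * C₂ ^ N) := by
      rw [hA, mul_pow, ← pow_mul, mul_comm 2 N, pow_mul]
      ring
    rw [h2, h3]
    exact mul_lt_mul_of_pos_right h1 (by positivity)
  have hNlow : κ₃ * Λ ≤ N := by
    have h1 : Real.log (θ * c₀ / C₂) < - Λ + N * Real.log A := by
      have := Real.log_lt_log (by positivity) hkey
      rw [Real.log_mul ht0.ne' (by positivity), Real.log_pow] at this
      linarith
    have h2 := neg_abs_le (Real.log (θ * c₀ / C₂))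
    have h3 : 2 * |Real.log (θ * c₀ / C₂)| ≤ Λ := by
      have : 0 ≤ |Real.log c₄| / κ' := by positivity
      linarith
    have h4 : Λ / 2 ≤ N * Real.log A := by linarith
    rw [hκ₃, div_mul_eq_mul_div, div_le_iff₀ (by positivity)]
    linarith
  -- the main estimate
  set s : ℝ := θ / ((N : ℝ) + 1) ^ 2 with hs
  have hs0 : 0 < s := by positivity
  have hs1 : s ≤ 1 := by
    rw [hs, div_le_one (by positivity)]
    have : (0 : ℝ) ≤ N := Nat.cast_nonneg N
    nlinarith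
  have hxN0 : 0 < x N := (hx N).1
  have e1 : t * p N * (s * x N) ^ (l - 1) ≤ (t * p N) ^ l := by
    have : (t * p N) ^ l = t * p N * (t * p N) ^ (l - 1) := by
      rw [← pow_succ']
      congr 1
      omega
    rw [this]
    have := hpp N
    gcongr
  have e2 : t * (s ^ L * (c₀ * μ ^ N / C₂)) ≤ t * p N * (s * x N) ^ (l - 1) := by
    have h1 : s ^ L ≤ s ^ (l - 1) := pow_le_pow_of_le_one hs0.le hs1 (by omega)
    have h2 : c₀ * μ ^ N / C₂ ≤ p N * x N ^ (l - 1) := by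
      rw [div_le_iff₀ hC₂0]
      calc c₀ * μ ^ N ≤ C₂ * p N * x N ^ (l - 1) := hlN
        _ = p N * x N ^ (l - 1) * C₂ := by ring
    calc t * (s ^ L * (c₀ * μ ^ N / C₂)) ≤ t * (s ^ (l - 1) * (p N * x N ^ (l - 1))) := by
          gcongr
      _ = t * p N * (s * x N) ^ (l - 1) := by rw [mul_pow]; ring
  have e3 : c₄ * ν ^ N ≤ s ^ L * (c₀ * μ ^ N / C₂) := by
    have h1 : s ^ L = θ ^ L / ((N : ℝ) + 1) ^ (2 * L) := by
      rw [hs, div_pow, ← pow_mul]
    rw [h1, hc₄, ← hνμ, mul_pow]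
    have h2 := hB N
    have h3 : θ ^ L / ((N : ℝ) + 1) ^ (2 * L) * (c₀ * (ν ^ N * ν ^ N) / C₂) =
        θ ^ L * c₀ * ν ^ N / C₂ * (ν ^ N / ((N : ℝ) + 1) ^ (2 * L)) := by
      field_simp
    have h4 : θ ^ L * c₀ / (C₂ * B) * ν ^ N = θ ^ L * c₀ * ν ^ N / C₂ * (1 / B) := by
      field_simp
    rw [h3, h4]
    refine mul_le_mul_of_nonneg_left ?_ (by positivity)
    rw [div_le_div_iff₀ hB0 (by positivity)]
    linarith
  have e4 : t ^ (1 - min (1 / 2) κ') ≤ t * (c₄ * ν ^ N) := by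
    have h1 : t ^ (1 - min (1 / 2) κ') ≤ t ^ (1 - κ') := by
      apply Real.rpow_le_rpow_of_exponent_ge ht0
      · refine ht1.trans ?_
        rw [Real.exp_le_one_iff]
        linarith
      · have := min_le_right (1 / 2) κ'
        linarith
    refine h1.trans ?_
    have h2 : t ^ (1 - κ') = t * Real.exp (κ' * Λ) := by
      rw [Real.rpow_sub ht0, Real.rpow_one, Real.rpow_def_of_pos ht0, div_eq_mul_inv, ← Real.exp_neg]
      congr 2
      rw [hΛt]; ring
    rw [h2]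
    gcongr
    rw [← Real.exp_log hc₄0, ← Real.exp_log (show (0 : ℝ) < ν ^ N by positivity), ← Real.exp_add,
      Real.exp_le_exp, Real.log_pow]
    have h3 : 2 * κ' * Λ ≤ N * Real.log ν := by
      calc 2 * κ' * Λ = (κ₃ * Λ) * Real.log ν := by rw [hκ']; ring
        _ ≤ N * Real.log ν := by gcongr
    have h4 : |Real.log c₄| ≤ κ' * Λ := by
      have h5 : |Real.log c₄| / κ' ≤ Λ := by
        have : 0 ≤ |Real.log (θ * c₀ / C₂)| := abs_nonneg _
        linarith
      rw [div_le_iff₀ hκ'0] at h5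
      linarith
    have h6 := neg_abs_le (Real.log c₄)
    linarith
  calc t ^ (1 - min (1 / 2) κ') ≤ t * (c₄ * ν ^ N) := e4
    _ ≤ t * (s ^ L * (c₀ * μ ^ N / C₂)) := by gcongr
    _ ≤ t * p N * (s * x N) ^ (l - 1) := e2
    _ ≤ (t * p N) ^ l := e1

end Pool.Agent.H332.AD211
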