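import Pool.Agent.H211.AD.Stm2
import Pool.Agent.H332.AD211.DEC
import Pool.Agent.H44.AD211.MEAS

/-!
# Zero area of the non-attracted set
-/

set_option autoImplicit false

open Metric Set MeasureTheory Filter Topology
open scoped ENNReal

namespace Pool.Agent.H332.AD211

open Pool.Agent.H211.AD
open Pool.Agent.W746.LD (Univ KC exists_KC)
open Pool.Agent.H44.AD211 (br_inj br_univ br_deriv image_le)

/-- Measure lemma, second form: the pull backs of a small ball have a definite proportion. -/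
theorem meas_low (hU' : S_UNIQ) : ∃ C : ℝ, 0 < C ∧ ∀ (f : ℂ → ℂ) (U : Set ℂ), IsOpen U →
    DifferentiableOn ℂ f U → ∀ (n : ℕ) (y : ℂ) (ρ : ℝ), 0 < ρ → ∀ (w : ℂ) (r : ℝ), 0 < r →
      ball w r ⊆ ball y ρ → ‖w - y‖ ≤ ρ / 4 → ∀ X Y Z : Set ℂ, Z ⊆ closedBall y (ρ / 4) →
      (∀ z ∈ X, ∃ g, IsBr f U n y ρ g ∧ z ∈ g '' Z ∧ g '' ball w r ⊆ Y) →
      volume X ≤ ENNReal.ofReal (C / r ^ 2) * volume Z * volume Y := by
  obtain ⟨C0, c0, K⟩ := exists_KC
  have hC0 : 0 < C0 := lt_of_lt_of_le one_pos K.one_le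
  have hc0 := K.pos
  have hπ := Real.pi_pos
  refine ⟨C0 ^ 4 / (c0 ^ 2 * Real.pi), by positivity, ?_⟩
  intro f U hU hf n y ρ hρ w r hr hwr hwy X Y Z hZ hX
  have hy : y ∈ ball y ρ := mem_ball_self hρ
  have hw : w ∈ ball y ρ := hwr (mem_ball_self hr)
  have hcb : closedBall y (ρ / 4) ⊆ ball y ρ := closedBall_subset_ball (by linarith)
  set I : Set ℂ := {p | ∃ g, IsBr f U n y ρ g ∧ g y = p ∧ g '' ball w r ⊆ Y} with hI
  choose G hG using fun p : I => p.2
  have hsub : X ⊆ ⋃ p : I, G p '' Z := by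
    intro z hz
    obtain ⟨g, hg, ⟨x, hx, hxz⟩, hgY⟩ := hX z hz
    refine mem_iUnion.2 ⟨⟨g y, g, hg, rfl, hgY⟩, x, hx, ?_⟩
    rw [← hxz]
    have h1 := hG ⟨g y, g, hg, rfl, hgY⟩
    have hxb : x ∈ ball y ρ := hcb (hZ hx)
    exact hU' f U hU hf n y y ρ ρ _ g h1.1 hg y ⟨hy, hy⟩ h1.2.1 x ⟨hxb, hxb⟩
  -- the small balls in the images
  set d : I → ℝ := fun p => ‖deriv (G p) y‖ with hd
  set e : I → ℝ := fun p => ‖deriv (G p) w‖ with he
  have he0 : ∀ p, 0 < e p := by
    intro p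
    refine norm_pos_iff.2 fun h0 => ?_
    have h1 := br_deriv hU hf (hG p).1 hw
    rw [h0, mul_zero] at h1
    exact zero_ne_one h1
  have hde : ∀ p, d p ≤ C0 * e p := fun p =>
    (K.kdist (G p) y ρ hρ (br_univ (hG p).1) w hwy).2
  have hd0 : ∀ p, 0 ≤ d p := fun p => norm_nonneg _
  set B : I → Set ℂ := fun p => ball (G p w) (c0 * r * e p) with hB
  have hBsub : ∀ p, B p ⊆ G p '' ball w r := by
    intro p a ha
    by_contra hcon
    have h1 := K.komit (G p) w r hr ((br_univ (hG p).1).mono hwr) a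
      (fun w hw hwa => hcon ⟨w, hw, hwa⟩)
    rw [hB, mem_ball, dist_comm, dist_eq_norm] at ha
    exact absurd ha (not_lt.2 h1)
  have hdisj : Pairwise (Function.onFun Disjoint B) := by
    intro p q hpq
    refine Set.disjoint_left.2 fun a hap haq => ?_
    obtain ⟨u, hu, hua⟩ := hBsub p hap
    obtain ⟨v, hv, hva⟩ := hBsub q haq
    have huv : u = v := by
      rw [← ((hG p).1.2 u (hwr hu)).2, ← ((hG q).1.2 v (hwr hv)).2, hua, hva]
    apply hpq
    have h1 := hU' f U hU hf n y y ρ ρ (G p) (G q) (hG p).1 (hG q).1 u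
      ⟨hwr hu, by rw [huv]; exact hwr hv⟩ (by rw [hua, huv, hva]) y ⟨hy, hy⟩
    rw [(hG p).2.1, (hG q).2.1] at h1
    exact Subtype.ext h1
  have hcount : Countable I := by
    have h1 : (univ : Set I).PairwiseDisjoint B := fun p _ q _ hpq => hdisj hpq
    have h2 := h1.countable_of_isOpen (fun p _ => isOpen_ball)
      (fun p _ => ⟨G p w, mem_ball_self (by have := he0 p; positivity)⟩)
    exact Set.countable_univ_iff.1 h2
  have hvolB : ∀ p, volume (B p) = ENNReal.ofReal ((c0 * r * e p) ^ 2 * Real.pi) := by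
    intro p
    have h0 : 0 ≤ c0 * r * e p := by
      have := he0 p
      positivity
    rw [hB, Complex.volume_ball, ← ENNReal.ofReal_pow h0,
      ENNReal.ofReal_mul (pow_nonneg h0 2)]
    congr 1
    rw [← NNReal.coe_real_pi, ENNReal.ofReal_coe_nnreal]
  have himg : ∀ p, volume (G p '' Z) ≤
      ENNReal.ofReal (C0 ^ 4 / (c0 ^ 2 * Real.pi) / r ^ 2) * volume Z * volume (B p) := by
    intro p
    have h1 := image_le (g := G p) hρ (B := C0 * d p)
      (hG p).1.1 (fun w hw => (K.kdist (G p) y ρ hρ (br_univ (hG p).1) w hw).1) hZ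
    have h2 : (C0 * d p) ^ 2 ≤ (C0 * (C0 * e p)) ^ 2 := by
      have := hd0 p
      have := hde p
      gcongr
    refine (h1.trans (mul_le_mul_left (ENNReal.ofReal_le_ofReal h2) _)).trans (le_of_eq ?_)
    rw [hvolB p, mul_right_comm, ← ENNReal.ofReal_mul (by positivity)]
    congr 2
    field_simp
  calc volume X ≤ volume (⋃ p : I, G p '' Z) := measure_mono hsub
    _ ≤ ∑' p : I, volume (G p '' Z) := measure_iUnion_le _
    _ ≤ ∑' p : I, ENNReal.ofReal (C0 ^ 4 / (c0 ^ 2 * Real.pi) / r ^ 2) * volume Z *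
          volume (B p) := ENNReal.tsum_le_tsum himg
    _ = ENNReal.ofReal (C0 ^ 4 / (c0 ^ 2 * Real.pi) / r ^ 2) * volume Z *
          ∑' p : I, volume (B p) := ENNReal.tsum_mul_left
    _ = ENNReal.ofReal (C0 ^ 4 / (c0 ^ 2 * Real.pi) / r ^ 2) * volume Z *
          volume (⋃ p : I, B p) := by
        rw [measure_iUnion hdisj fun p => isOpen_ball.measurableSet]
    _ ≤ _ := by
        gcongr
        exact iUnion_subset fun p => (hBsub p).trans (hG p).2.2

lemma E_mono' (f : ℂ → ℂ) (U K : Set ℂ) {δ δ' : ℝ} (h : δ ≤ δ') (n : ℕ) :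
    E f U K δ n ⊆ E f U K δ' n :=
  fun _ hz => ⟨hz.1, cthickening_mono h K hz.2⟩

lemma bb_le_const {a : ℕ → ℝ} {q V : ℝ} (hq : 0 ≤ q) (hq1 : q ≤ 1) (hV : 0 ≤ V)
    (h : ∀ n, a n ≤ V) (n : ℕ) : bb a q n ≤ V := by
  induction n with
  | zero => exact h 0
  | succ n ih =>
    refine max_le (h _) ?_
    calc q * bb a q n ≤ q * V := mul_le_mul_of_nonneg_left ih hq
      _ ≤ 1 * V := mul_le_mul_of_nonneg_right hq1 hV
      _ = V := one_mul V

theorem t_ZERO (hHIT : S_HIT) (hUNIQ : S_UNIQ) (hR1 : S_R1) : S_ZERO := by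
  intro f U K Cr ℓ δ₀ Cp rp c₀ μ hS hint
  by_contra hK
  have hKtop : volume K ≠ ⊤ := hS.cpt.measure_lt_top.ne
  set v : ℝ := (volume K).toReal with hv
  have hv0 : 0 < v := ENNReal.toReal_pos hK hKtop
  have hμ1 := hS.μ_gt
  have hμ0 : 0 < μ := by linarith
  set κ : ℝ := (1 + μ) / (2 * μ) with hκ
  have hκμ : 1 < κ * μ := by
    rw [hκ]
    have : (1 + μ) / (2 * μ) * μ = (1 + μ) / 2 := by field_simp
    rw [this]
    linarith
  have hκ1 : κ < 1 := by
    rw [hκ, div_lt_one (by positivity)]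
    linarith
  have hκ0 : 0 < κ := by rw [hκ]; positivity
  have hCp := hS.Cp_ge
  have hCp0 : 0 < Cp := by linarith
  have hc0 := hS.c₀_pos
  obtain ⟨Ch, hCh, hH⟩ := hHIT f U K Cr ℓ δ₀ Cp rp c₀ μ hS (κ * μ) hκμ (by nlinarith)
  obtain ⟨Cm, hCm, hM⟩ := meas_low hUNIQ
  obtain ⟨δb, hδb, hback⟩ := hS.back 1 one_pos
  obtain ⟨δ₁, hδ₁, hR1'⟩ := hR1 f U K Cr ℓ δ₀ Cp rp c₀ μ hS κ hκμ hκ1
  set δ : ℝ := min (min δ₀ rp) (min δb δ₁) with hδdef
  have hδ : 0 < δ := lt_min (lt_min hS.δ₀_pos hS.rp_pos) (lt_min hδb hδ₁)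
  have hδ0 : δ ≤ δ₀ := (min_le_left _ _).trans (min_le_left _ _)
  have hδr : δ ≤ rp := (min_le_left _ _).trans (min_le_right _ _)
  have hδb' : δ ≤ δb := (min_le_right _ _).trans (min_le_left _ _)
  have hδ₁' : δ ≤ δ₁ := (min_le_right _ _).trans (min_le_right _ _)
  have hsub1 : ∀ n, E f U K δ n ⊆ cthickening 1 K := fun n =>
    (E_mono' f U K hδb' n).trans (hback n)
  have hc1 : volume (cthickening 1 K) ≠ ⊤ := hS.cpt.cthickening.measure_lt_top.ne
  have hfin : ∀ n, volume (E f U K δ n) ≠ ⊤ := fun n =>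
    ne_top_of_le_ne_top hc1 (measure_mono (hsub1 n))
  obtain ⟨C₁, hC₁, hrec⟩ := hR1' δ hδ hδ₁'
  have hX0 : 0 < Cp * Ch / c₀ := by positivity
  set C : ℝ := max C₁ (2 * (Cp * Ch / c₀) + 1) with hC
  have hC1 : 1 ≤ C := hC₁.trans (le_max_left _ _)
  have hC0 : 0 < C := by linarith
  have hCX : 2 * (Cp * Ch / c₀) + 1 ≤ C := le_max_right _ _
  set V : ℝ := (volume (cthickening 1 K)).toReal with hV
  have hV0 : 0 ≤ V := ENNReal.toReal_nonneg
  have har0 : ∀ n, 0 ≤ ar f U K δ n := fun n => ENNReal.toReal_nonneg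
  have harV : ∀ n, ar f U K δ n ≤ V := fun n => ENNReal.toReal_mono hc1 (measure_mono (hsub1 n))
  obtain ⟨γ, q, A, hγ0, hq0, hq1, hκq, hA0, hΦ⟩ :=
    first_half Cr ℓ κ C (ar f U K δ) (ph f U K δ) hS.deg hκ0 hκ1 hC1 har0
      (fun n c ρ => ENNReal.toReal_mono (hfin n) (measure_mono fun z hz => hz.1))
      (hrec C (le_max_left _ _))
  have hbV : ∀ n, bb (ar f U K δ) q n ≤ V := bb_le_const hq0.le hq1.le hV0 harV
  have hκγ0 : 0 < κ ^ γ := Real.rpow_pos_of_pos hκ0 _
  have hCγ : 0 < C ^ γ := Real.rpow_pos_of_pos hC0 _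
  have hs1 : κ ^ γ / q < 1 := by rw [div_lt_one hq0]; exact hκq
  have h1s : 0 < 1 - κ ^ γ / q := by linarith
  set X : ℝ := (Cr.card : ℝ) * (A * C ^ γ / q) * ((κ ^ γ / q) ^ 0 / (1 - κ ^ γ / q)) with hX
  have hXnn : 0 ≤ X := by positivity
  obtain ⟨R', hR', hH'⟩ := hH δ hδ
  -- the scale
  set z₀ : ℝ := v / (2 * (X * V + 1)) with hz₀
  have hz₀0 : 0 < z₀ := by positivity
  set ϱ : ℝ := min (min R' (δ / 4)) (z₀ ^ (1 / γ)) with hϱdef
  have hϱ : 0 < ϱ := lt_min (lt_min hR' (by positivity)) (Real.rpow_pos_of_pos hz₀0 _)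
  have hϱR : ϱ ≤ R' := (min_le_left _ _).trans (min_le_left _ _)
  have hϱδ : 4 * ϱ ≤ δ := by
    have : ϱ ≤ δ / 4 := (min_le_left _ _).trans (min_le_right _ _)
    linarith
  have hϱz : ϱ ^ γ ≤ z₀ := by
    calc ϱ ^ γ ≤ (z₀ ^ (1 / γ)) ^ γ := Real.rpow_le_rpow hϱ.le (min_le_right _ _) hγ0.le
      _ = z₀ := by
          rw [← Real.rpow_mul hz₀0.le, one_div, inv_mul_cancel₀ hγ0.ne', Real.rpow_one]
  have hXϱ : X * ϱ ^ γ * V ≤ v / 2 := by
    calc X * ϱ ^ γ * V ≤ X * z₀ * V := by gcongr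
      _ = (X * V) * v / (2 * (X * V + 1)) := by rw [hz₀]; ring
      _ ≤ v / 2 := by
          rw [div_le_div_iff₀ (by positivity) (by norm_num)]
          have : 0 ≤ X * V := by positivity
          nlinarith
  -- the cover
  obtain ⟨t', htsub, htfin, htcov⟩ := hS.cpt.finite_cover_balls (e := ϱ / 16) (by positivity)
  obtain ⟨t, rfl⟩ : ∃ t : Finset ℂ, (t : Set ℂ) = t' := ⟨htfin.toFinset, by simp⟩
  have hsmall : ∀ y : ℂ, ∃ (w : ℂ) (r : ℝ), 0 < r ∧ ball w r ⊆ ball y (ϱ / 16) \ K := by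
    intro y
    have hnot : ¬ ball y (ϱ / 16) ⊆ K := by
      intro hcon
      have := interior_maximal hcon isOpen_ball
      rw [hint] at this
      exact this (mem_ball_self (by positivity))
    obtain ⟨w, hw1, hw2⟩ := Set.not_subset.1 hnot
    have hop : IsOpen (ball y (ϱ / 16) \ K) := isOpen_ball.sdiff hS.cpt.isClosed
    obtain ⟨r, hr, hr'⟩ := Metric.isOpen_iff.1 hop w ⟨hw1, hw2⟩
    exact ⟨w, r, hr, hr'⟩
  choose w r hr hwr using hsmall
  let Xs : ℕ → ℂ → Set ℂ := fun n y => {z | z ∈ K ∧ f^[n] z ∈ ball y (ϱ / 16) ∧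
    ∃ g, IsBr f U n (f^[n] z) ϱ g ∧ g (f^[n] z) = z}
  let P : ℕ → ℕ → ℂ → Set ℂ := fun n j c => {z | z ∈ E f U K δ (n - (j + 1)) ∧
    ‖f^[n - (j + 1)] z - c‖ < (C * κ ^ j * ϱ) ^ (1 / (ℓ c : ℝ))}
  have hiterK : ∀ (z : ℂ), z ∈ K → ∀ i, f^[i] z ∈ K := by
    intro z hz i
    induction i with
    | zero => exact hz
    | succ i ih =>
      rw [Function.iterate_succ_apply']
      exact hS.fwd _ ih
  have hKU : K ⊆ U := (self_subset_cthickening K).trans hS.thick
  have hcov : ∀ n, K ⊆ (⋃ y ∈ t, Xs n y) ∪ ⋃ j ∈ Finset.range n, ⋃ c ∈ Cr, P n j c := by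
    intro n z hz
    have hzU : ∀ i < n, f^[i] z ∈ U := fun i _ => hKU (hiterK z hz i)
    have hwK : f^[n] z ∈ K := hiterK z hz n
    rcases hH' n z ϱ hϱ hϱR hzU (self_subset_cthickening K hwK) with h | h
    · left
      have := htcov hwK
      simp only [mem_iUnion, exists_prop] at this ⊢
      obtain ⟨y, hy, hyw⟩ := this
      exact ⟨y, hy, hz, hyw, h⟩
    · right
      obtain ⟨j, hj, c, hc, -, ⟨h1, h2⟩, -⟩ := h
      simp only [mem_iUnion, exists_prop, Finset.mem_range]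
      refine ⟨j, hj, c, hc, ⟨⟨fun i hi => hzU i (by omega), ?_⟩, ?_⟩⟩
      · exact self_subset_cthickening K (hiterK z hz _)
      · have hl := hS.loc c hc (f^[n - (j + 1)] z) (h1.le.trans hδr)
        have hit : f (f^[n - (j + 1)] z) = f^[n - j] z := by
          rw [← Function.iterate_succ_apply' f (n - (j + 1)) z]
          have h9 : (n - (j + 1)).succ = n - j := by omega
          rw [h9]
        rw [hit] at hl
        have hce := hS.ce c hc j
        have hpos : 0 < c₀ * μ ^ j := by positivity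
        have h3 : Ch * (κ * μ) ^ j * ϱ / ‖deriv f^[j] (f c)‖ ≤ Ch / c₀ * κ ^ j * ϱ := by
          calc Ch * (κ * μ) ^ j * ϱ / ‖deriv f^[j] (f c)‖
              ≤ Ch * (κ * μ) ^ j * ϱ / (c₀ * μ ^ j) := by
                apply div_le_div_of_nonneg_left _ hpos hce
                positivity
            _ = Ch / c₀ * κ ^ j * ϱ := by
                rw [mul_pow]
                field_simp
        have h4 : ‖f^[n - (j + 1)] z - c‖ ^ ℓ c ≤ Cp * (Ch / c₀ * κ ^ j * ϱ) :=
          hl.2.2.1.trans (mul_le_mul_of_nonneg_left (h2.trans h3) hCp0.le)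
        have h5 : Cp * (Ch / c₀ * κ ^ j * ϱ) < C * κ ^ j * ϱ := by
          have h6 : 0 < κ ^ j * ϱ := by positivity
          have h7 : Cp * Ch / c₀ < C := by linarith
          calc Cp * (Ch / c₀ * κ ^ j * ϱ) = (Cp * Ch / c₀) * (κ ^ j * ϱ) := by ring
            _ < C * (κ ^ j * ϱ) := mul_lt_mul_of_pos_right h7 h6
            _ = C * κ ^ j * ϱ := by ring
        have hℓ : ℓ c ≠ 0 := by
          have := hS.deg c hc
          omega
        have h8 : ‖f^[n - (j + 1)] z - c‖ = (‖f^[n - (j + 1)] z - c‖ ^ ℓ c) ^ (1 / (ℓ c : ℝ)) := by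
          rw [one_div, Real.pow_rpow_inv_natCast (norm_nonneg _) hℓ]
        rw [h8]
        apply Real.rpow_lt_rpow (by positivity) (h4.trans_lt h5)
        have : 0 < (ℓ c : ℝ) := by
          exact_mod_cast Nat.pos_of_ne_zero hℓ
        positivity
  -- the hits
  have hPfin : ∀ n j c, volume (P n j c) ≠ ⊤ := fun n j c =>
    ((measure_mono (fun z hz => hz.1)).trans_lt (lt_top_iff_ne_top.2 (hfin (n - (j + 1))))).ne
  have hPsum : ∀ n, ∑ j ∈ Finset.range n, ∑ c ∈ Cr, volume (P n j c) ≤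
      ENNReal.ofReal (v / 2) := by
    intro n
    have hsumfin : ∑ j ∈ Finset.range n, ∑ c ∈ Cr, volume (P n j c) ≠ ⊤ :=
      ENNReal.sum_ne_top.2 fun j _ => ENNReal.sum_ne_top.2 fun c _ => hPfin n j c
    rw [← ENNReal.ofReal_toReal hsumfin]
    apply ENNReal.ofReal_le_ofReal
    rw [ENNReal.toReal_sum (fun j _ => ENNReal.sum_ne_top.2 fun c _ => hPfin n j c)]
    have h1 := dsum Cr ℓ κ C γ q A (ar f U K δ) (ph f U K δ) hS.deg hκ0 hC0 hq0 hκq hA0.le har0 n
      (fun m _ => hΦ m) 0 ϱ hϱ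
    rw [← Finset.range_eq_Ico] at h1
    calc ∑ j ∈ Finset.range n, (∑ c ∈ Cr, volume (P n j c)).toReal
        = ∑ j ∈ Finset.range n, ∑ c ∈ Cr,
            ph f U K δ (n - (j + 1)) c ((C * κ ^ j * ϱ) ^ (1 / (ℓ c : ℝ))) := by
          refine Finset.sum_congr rfl fun j _ => ?_
          rw [ENNReal.toReal_sum (fun c _ => hPfin n j c)]
          rfl
      _ ≤ X * ϱ ^ γ * bb (ar f U K δ) q n := h1
      _ ≤ X * ϱ ^ γ * V := by
          refine mul_le_mul_of_nonneg_left (hbV n) ?_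
          have := Real.rpow_nonneg hϱ.le γ
          positivity
      _ ≤ v / 2 := hXϱ
  -- the good points
  set W : ℝ≥0∞ := ∑ y ∈ t, ENNReal.ofReal (Cm / (r y) ^ 2) * volume (closedBall y (ϱ / 8)) with hW
  have hWtop : W ≠ ⊤ := ENNReal.sum_ne_top.2 fun y _ =>
    ENNReal.mul_ne_top ENNReal.ofReal_ne_top (isCompact_closedBall y _).measure_lt_top.ne
  have hXm : ∀ n, ∑ y ∈ t, volume (Xs n y) ≤ W * volume (E f U K δ n \ K) := by
    intro n
    rw [hW, Finset.sum_mul]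
    refine Finset.sum_le_sum fun y hy => ?_
    have hyK : y ∈ K := htsub hy
    have hwy : w y ∈ ball y (ϱ / 16) := (hwr y (mem_ball_self (hr y))).1
    have hwy' : ‖w y - y‖ < ϱ / 16 := by
      rw [← dist_eq_norm]
      exact hwy
    have hsubb : ball (w y) (r y) ⊆ ball y (ϱ / 2) := fun x hx =>
      ball_subset_ball (by linarith) (hwr y hx).1
    refine hM f U hS.openU hS.diff n y (ϱ / 2) (by positivity) (w y) (r y) (hr y) hsubb
      (by linarith) _ _ _ ?_ ?_
    · have : ϱ / 2 / 4 = ϱ / 8 := by ring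
      rw [this]
    · rintro z ⟨hz, hzy, g, hg, hgz⟩
      have hsub : ball y (ϱ / 2) ⊆ ball (f^[n] z) ϱ := by
        apply ball_subset_ball'
        rw [mem_ball, dist_comm] at hzy
        linarith
      refine ⟨g, ⟨hg.1.mono hsub, fun x hx => hg.2 x (hsub hx)⟩, ⟨f^[n] z, ?_, hgz⟩, ?_⟩
      · rw [mem_ball] at hzy
        rw [mem_closedBall]
        linarith
      · rintro _ ⟨x, hx, rfl⟩
        have h2 := hg.2 x (hsub (hsubb hx))
        have hx' := hwr y hx
        refine ⟨⟨h2.1, ?_⟩, ?_⟩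
        · rw [h2.2]
          refine mem_cthickening_of_dist_le _ y δ K hyK ?_
          have := hx'.1
          rw [mem_ball] at this
          linarith
        · intro hgK
          apply hx'.2
          rw [← h2.2]
          exact hiterK _ hgK n
  -- the remainder tends to zero
  obtain ⟨n, hn⟩ : ∃ n, W * volume (E f U K δ n \ K) < ENNReal.ofReal (v / 2) := by
    have htend : Tendsto (fun r => volume (cthickening r K)) (𝓝 0) (𝓝 (volume K)) :=
      tendsto_measure_cthickening_of_isCompact hS.cpt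
    have htend1 : Tendsto (fun r => volume (cthickening r K) - volume K) (𝓝 0)
        (𝓝 (volume K - volume K)) :=
      ENNReal.Tendsto.sub htend tendsto_const_nhds (Or.inr hKtop)
    rw [tsub_self] at htend1
    have htend2 : Tendsto (fun r => W * (volume (cthickening r K) - volume K)) (𝓝 0)
        (𝓝 (W * 0)) := ENNReal.Tendsto.const_mul htend1 (Or.inr hWtop)
    have h0 : W * 0 < ENNReal.ofReal (v / 2) := by
      rw [mul_zero, ENNReal.ofReal_pos]
      positivity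
    obtain ⟨r, hr, hr'⟩ := Metric.eventually_nhds_iff.1 ((tendsto_order.1 htend2).2 _ h0)
    have hr2 : W * (volume (cthickening (r / 2) K) - volume K) < ENNReal.ofReal (v / 2) := by
      apply hr'
      rw [Real.dist_eq, sub_zero, abs_of_pos (by positivity)]
      linarith
    obtain ⟨T, hT⟩ := hS.late (r / 2) (by positivity)
    refine ⟨T, lt_of_le_of_lt ?_ hr2⟩
    gcongr
    rw [← measure_sdiff (self_subset_cthickening K) hS.cpt.isClosed.measurableSet.nullMeasurableSet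
      hKtop]
    exact measure_mono (sdiff_subset_sdiff_left ((E_mono' f U K hδ0 T).trans (hT T le_rfl)))
  have hfinal : volume K < volume K := by
    calc volume K ≤ volume ((⋃ y ∈ t, Xs n y) ∪ ⋃ j ∈ Finset.range n, ⋃ c ∈ Cr, P n j c) :=
          measure_mono (hcov n)
      _ ≤ volume (⋃ y ∈ t, Xs n y) + volume (⋃ j ∈ Finset.range n, ⋃ c ∈ Cr, P n j c) :=
          measure_union_le _ _
      _ ≤ (∑ y ∈ t, volume (Xs n y)) + ∑ j ∈ Finset.range n, ∑ c ∈ Cr, volume (P n j c) := by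
          refine add_le_add (measure_biUnion_finset_le _ _) ?_
          refine (measure_biUnion_finset_le _ _).trans (Finset.sum_le_sum fun j _ => ?_)
          exact measure_biUnion_finset_le _ _
      _ ≤ W * volume (E f U K δ n \ K) + ENNReal.ofReal (v / 2) :=
          add_le_add (hXm n) (hPsum n)
      _ < ENNReal.ofReal (v / 2) + ENNReal.ofReal (v / 2) :=
          ENNReal.add_lt_add_right ENNReal.ofReal_ne_top hn
      _ = volume K := by
          rw [← ENNReal.ofReal_add (by positivity) (by positivity), add_halves, hv,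
            ENNReal.ofReal_toReal hKtop]
  exact lt_irrefl _ hfinal

end Pool.Agent.H332.AD211
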